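import Pool.Agent.MP_57df8f_al.H50.Mat

open scoped MatrixGroups

namespace Pool.Agent.Results.MP_57df8f_al.HighlyTransitive

universe u

open Pool.Agent.MP_57df8f_al.H50 in
theorem result (F : Type u) [Field F] [Countable F] [Infinite F] :
    (∃ (Ω : Type u) (_ : MulAction PGL(2, F) Ω), FaithfulSMul PGL(2, F) Ω ∧ Infinite Ω ∧
      ∀ k : ℕ, 1 ≤ k → MulAction.IsMultiplyPretransitive PGL(2, F) Ω k) ↔
    ¬ (ringChar F ≠ 0 ∧ Algebra.IsAlgebraic (⊥ : Subfield F) F) := by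
  constructor
  · rintro ⟨Ω, _, -, _, hk⟩ ⟨h0, h⟩
    exact not_four_transitive h0 h Ω (hk 4 (by norm_num))
  · intro h
    obtain ⟨V, π, H⟩ := exists_cof h
    obtain ⟨M, hf, hk⟩ := ht_of_cof H
    exact ⟨PGL(2, F) ⧸ M, inferInstance, hf, infinite_of_faithful (F := F) _, fun k _ => hk k⟩

end Pool.Agent.Results.MP_57df8f_al.HighlyTransitive
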