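import Pool.Agent.MP_57df8f_al.H50.Mat

open scoped MatrixGroups LinearAlgebra.Projectivization

namespace Pool.Agent.Results.MP_57df8f_al.TransitivityDegree

universe u

/-- the transitivity degree: the supremum of all `k ≥ 1` such that `G` has a faithful action on a
set with at least `k` points that is transitive on `k`-tuples of distinct points -/
noncomputable def td (G : Type u) [Group G] : ℕ∞ :=
  sSup {n : ℕ∞ | ∃ k : ℕ, n = k ∧ 1 ≤ k ∧ ∃ (Ω : Type u) (_ : MulAction G Ω),
    FaithfulSMul G Ω ∧ (k : ℕ∞) ≤ ENat.card Ω ∧ MulAction.IsMultiplyPretransitive G Ω k}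

open Pool.Agent.MP_57df8f_al.H50 in
theorem result (F : Type u) [Field F] [Countable F] [Infinite F] :
    (ringChar F ≠ 0 ∧ Algebra.IsAlgebraic (⊥ : Subfield F) F → td PGL(2, F) = 3) ∧
    (¬ (ringChar F ≠ 0 ∧ Algebra.IsAlgebraic (⊥ : Subfield F) F) → td PGL(2, F) = ⊤) := by
  constructor
  · rintro ⟨h0, h⟩
    apply le_antisymm
    · apply sSup_le
      rintro _ ⟨k, rfl, -, Ω, _, hf, -, hk⟩
      have := infinite_of_faithful (F := F) Ω
      by_contra hlt
      have h4 : 4 ≤ k := by
        by_contra h3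
        exact hlt (by exact_mod_cast (show k ≤ 3 by omega))
      exact not_four_transitive h0 h Ω
        (MulAction.isMultiplyPretransitive_of_le' (n := k) h4 (by simp))
    · apply le_sSup
      have := infinite_proj (F := F)
      exact ⟨3, rfl, by norm_num, ℙ F (Fin 2 → F), inferInstance, faithful_proj, by simp,
        three_transitive⟩
  · intro h
    obtain ⟨V, π, H⟩ := exists_cof h
    obtain ⟨M, hf, hk⟩ := ht_of_cof H
    have := infinite_of_faithful (F := F) (PGL(2, F) ⧸ M)
    refine ENat.eq_top_iff_forall_ge.2 fun k => ?_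
    refine le_trans (show (k : ℕ∞) ≤ ((k + 1 : ℕ) : ℕ∞) by exact_mod_cast Nat.le_succ k) ?_
    apply le_sSup
    exact ⟨k + 1, rfl, by omega, PGL(2, F) ⧸ M, inferInstance, hf, by simp, hk _⟩

end Pool.Agent.Results.MP_57df8f_al.TransitivityDegree
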